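import Pool.Agent.R795.HamPow.Lower

set_option autoImplicit false

/-!
A necessary condition: every `α` that is good for `t` satisfies `α > 1 - 1/(2t)`.
-/

namespace Pool.Agent.Results.MP_61e9ba_co.ThresholdLower

open Pool.Agent.TH742.HP

/-- Every `α` that is good for `t` is larger than `1 - 1/(2t)`: for every `α ≤ 1 - 1/(2t)` there
are arbitrarily large `k` and `n ≥ k` and an `α`-subgraph of `C_n^k` without the `t`-th power of
a Hamilton cycle. -/
theorem result : ∀ t : ℕ, 1 ≤ t → ∀ α : ℝ, Good t α → 1 - 1 / (2 * (t : ℝ)) < α :=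
  fun t ht α h => by
    by_contra hα
    exact Pool.Agent.R795.HamPow.lower t ht α (not_lt.mp hα) h

end Pool.Agent.Results.MP_61e9ba_co.ThresholdLower
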